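import Pool.Agent.Y405.PM.Fin

/-!
# The log-rank conjecture for polynomials of constant degree over arbitrary finite fields and
# arbitrary finite abelian groups

Let `X` be a finite abelian group (no bound for the number of generators), `Y` any finite set and
`m ≥ 2`. If any two columns of `F : X × Y → {0,1}` differ by a polynomial map `X → ℤ / m` of degree
at most `d + 1` (all `(d+2)`-fold differences vanish), then
`D(F) ≤ (60 (d+3)^2 2^d (log₂ rank F + 1)) ^ (2^d)`. The bound does not depend on `m` and `X`. In
particular this holds for functions `K^n × Y → {0,1}` whose columns differ by polynomials of degree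
at most `d + 1` over an arbitrary finite field `K`. (For `X = F_2^n`, `m = 2` this is the starting
result ConstantDegree.)

The proof. Let `Q` be a set of maps `f : X → ℤ / p` of degree at most `d` such that the matrix
`exp(2 π i f(x) / p)` has rank at most `2 ^ s`. The differences `f(x + a) - f(x)` have smaller degree
and rank at most `4 ^ s`, so by induction there are few of them for each `a`. For some `f₀` and many
`f` in `Q` the period group `H` of `f - f₀` has small index `2 N`; so the Fourier support of
`exp(2 π i (f - f₀) / p)` has at most `2 N` elements, and as these functions span a space of dimension at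
most `2 ^ s`, all of them have their support in a set `L` of at most `2 ^ s 2 N` characters. A set of
at most `log₂ 2 N` of the characters in the support has the same common kernel `Z`. There are few
such sets, and for each of them `f` is determined by `f(0)` and by the differences of `f` in
`log₂ 2 N` directions, which generate `X / Z`. The dependence on `p` is removed as follows: a
nonconstant polynomial map of degree `n` to `ℤ / p` with values in `{0, 1, -1}` exists only for
`p ≤ 3 n`.
-/

set_option autoImplicit false

namespace Pool.Agent.Results.MP_e5d384_lc.PolynomialColumns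

/-- `f : X → C` (`X` and `C` abelian groups) is a polynomial map of degree at most `n`: all its
`(n+1)`-fold differences vanish. -/
def PolyMap {X C : Type} [AddCommGroup X] [AddCommGroup C] : ℕ → (X → C) → Prop
  | 0, f => ∀ x y, f x = f y
  | n + 1, f => ∀ a, PolyMap n (fun x => f (x + a) - f x)

/-- the bit `b` as an element of a ring `R` -/
def toRing (R : Type) [CommRing R] (b : Bool) : R := if b then 1 else 0

/-- `F` has a deterministic two-party protocol with at most
`(60 (d+3)^2 2^d (log₂ r + 1)) ^ (2^d)` bits, where `r` is the real rank of its communication matrix.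
(Protocols exactly as in the frozen statement S15531: `t` is the transcript so far, `owner t` says
who speaks, `c` bits are exchanged, and the answer is a function of the transcript.) -/
def LogRank {X Y : Type} [Fintype X] [Fintype Y] (F : X → Y → Bool) (d : ℕ) : Prop :=
  ∃ (c : ℕ) (owner : List Bool → Bool) (a : List Bool → X → Bool)
      (b : List Bool → Y → Bool) (out : List Bool → Bool),
      (∀ x y, out (Nat.iterate
        (fun t : List Bool => t ++ [if owner t then a t x else b t y]) c []) = F x y) ∧
      (c : ℝ) ≤ (60 * ((d : ℝ) + 3) ^ 2 * 2 ^ d * (Real.logb 2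
          ((Matrix.of (fun (x : X) (y : Y) => if F x y then (1 : ℝ) else 0)).rank : ℝ) + 1)) ^ 2 ^ d

theorem pol_iff {X C : Type} [AddCommGroup X] [AddCommGroup C] (n : ℕ) :
    ∀ f : X → C, PolyMap n f ↔ Pool.Agent.Y405.PM.Pol n f := by
  induction n with
  | zero => intro f; exact Iff.rfl
  | succ n ih => intro f; exact forall_congr' fun a => ih _

theorem log_of_few {X Y : Type} [Fintype X] [Fintype Y] (F : X → Y → Bool) (d : ℕ)
    (h : ∃ (N : ℕ) (enc : Y → (Fin N → Bool)), (∀ y y', enc y = enc y' → ∀ x, F x y = F x y') ∧
      (N : ℝ) + 1 ≤ Pool.Agent.Y405.PM.bound d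
        (Matrix.of (fun (x : X) (y : Y) => if F x y then (1 : ℝ) else 0)).rank) : LogRank F d := by
  obtain ⟨N, enc, henc, hN⟩ := h
  obtain ⟨owner, a, b, out, hp⟩ := Pool.Agent.H161R4.oneway F N enc henc
  refine ⟨N + 1, owner, a, b, out, hp, ?_⟩
  push_cast
  exact hN

theorem swap {X Y : Type} [Fintype X] [Fintype Y] (F : X → Y → Bool) (d : ℕ)
    (h : LogRank (fun y x => F x y) d) : LogRank F d := by
  obtain ⟨c, owner, a, b, out, h, hc⟩ := h
  obtain ⟨owner', a', b', out', h'⟩ :=
    Pool.Agent.H161R4.Prot.swap (F := fun y x => F x y) ⟨owner, a, b, out, h⟩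
  refine ⟨c, owner', a', b', out', h', ?_⟩
  have e : (Matrix.of (fun (x : X) (y : Y) => if F x y then (1 : ℝ) else 0)).rank =
      (Matrix.of (fun (y : Y) (x : X) => if F x y then (1 : ℝ) else 0)).rank := by
    rw [← Matrix.rank_transpose]
    rfl
  rw [e]
  exact hc

theorem part1 (d : ℕ) (X Y : Type) [AddCommGroup X] [Fintype X] [Fintype Y] (m : ℕ) (hm : 2 ≤ m)
    (F : X → Y → Bool)
    (hF : ∀ y y', PolyMap (d + 1) (fun x => toRing (ZMod m) (F x y) - toRing (ZMod m) (F x y'))) :
    LogRank F d :=
  log_of_few F d (Pool.Agent.Y405.PM.few d m (by omega) F fun y y' => (pol_iff _ _).1 (hF y y'))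

theorem part3 (d : ℕ) (K : Type) [Field K] [Fintype K] (n : ℕ) (Y : Type) [Fintype Y]
    (F : (Fin n → K) → Y → Bool)
    (hF : ∀ y y', ∃ P : MvPolynomial (Fin n) K, P.totalDegree ≤ d + 1 ∧
      ∀ x, toRing K (F x y) - toRing K (F x y') = MvPolynomial.eval x P) : LogRank F d := by
  refine log_of_few F d (Pool.Agent.Y405.PM.few_field K d F fun y y' => ?_)
  obtain ⟨P, hP, h⟩ := hF y y'
  have h1 := Pool.Agent.Y405.PM.pol_eval (d + 1) P hP
  have e : (fun x => Pool.Agent.Y405.PM.bit K (F x y) - Pool.Agent.Y405.PM.bit K (F x y')) =
      fun x => MvPolynomial.eval x P := funext h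
  rw [e]
  exact h1

/-- joining two vectors -/
def joinHom (K : Type) [Field K] (n n' : ℕ) :
    ((Fin n → K) × (Fin n' → K)) →+ (Fin n ⊕ Fin n' → K) where
  toFun z := Sum.elim z.1 z.2
  map_zero' := by funext i; rcases i with i | i <;> rfl
  map_add' := by intro a b; funext i; rcases i with i | i <;> simp

/-- **The log-rank conjecture for functions of constant degree over arbitrary finite abelian groups
and arbitrary finite fields.** Let `d ≥ 0`.
(1) Let `X` be a finite abelian group, `Y` a finite set and `m ≥ 2`. If any two columns of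
`F : X × Y → {0,1}` differ by a polynomial map `X → ℤ / m` of degree at most `d + 1`, then
`D(F) ≤ (60 (d+3)^2 2^d (log₂ rank F + 1)) ^ (2^d)`;
(2) the same for rows;
(3) the same for `F : K^n × Y → {0,1}`, `K` a finite field, if any two columns differ by a polynomial
over `K` of total degree at most `d + 1`;
(4) the same for every `F : K^n × K^n' → {0,1}` that is a polynomial over `K` of total degree at most
`d + 2`.
The bound depends on `d` and on the rank only. -/
theorem result (d : ℕ) :
    (∀ (X Y : Type) [AddCommGroup X] [Fintype X] [Fintype Y] (m : ℕ), 2 ≤ m →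
      ∀ F : X → Y → Bool,
      (∀ y y', PolyMap (d + 1) (fun x => toRing (ZMod m) (F x y) - toRing (ZMod m) (F x y'))) →
      LogRank F d) ∧
    (∀ (X Y : Type) [Fintype X] [AddCommGroup Y] [Fintype Y] (m : ℕ), 2 ≤ m →
      ∀ F : X → Y → Bool,
      (∀ x x', PolyMap (d + 1) (fun y => toRing (ZMod m) (F x y) - toRing (ZMod m) (F x' y))) →
      LogRank F d) ∧
    (∀ (K : Type) [Field K] [Fintype K] (n : ℕ) (Y : Type) [Fintype Y] (F : (Fin n → K) → Y → Bool),
      (∀ y y', ∃ P : MvPolynomial (Fin n) K, P.totalDegree ≤ d + 1 ∧
        ∀ x, toRing K (F x y) - toRing K (F x y') = MvPolynomial.eval x P) → LogRank F d) ∧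
    (∀ (K : Type) [Field K] [Fintype K] (n n' : ℕ) (F : (Fin n → K) → (Fin n' → K) → Bool)
      (P : MvPolynomial (Fin n ⊕ Fin n') K), P.totalDegree ≤ d + 2 →
      (∀ x y, toRing K (F x y) = MvPolynomial.eval (Sum.elim x y) P) → LogRank F d) := by
  refine ⟨fun X Y _ _ _ m hm F hF => part1 d X Y m hm F hF, ?_,
    fun K _ _ n Y _ F hF => part3 d K n Y F hF, ?_⟩
  · intro X Y _ _ _ m hm F hF
    exact swap F d (part1 d Y X m hm (fun y x => F x y) hF)
  · intro K _ _ n n' F P hP hF
    refine log_of_few F d (Pool.Agent.Y405.PM.few_field K d F fun y y' => ?_)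
    have h1 := (Pool.Agent.Y405.PM.pol_eval (d + 2) P hP).pre (joinHom K n n')
    have h2 := Pool.Agent.Y405.PM.Pol.slice (d := d + 1) h1 y y'
    have e : (fun x => Pool.Agent.Y405.PM.bit K (F x y) - Pool.Agent.Y405.PM.bit K (F x y')) =
        fun x => MvPolynomial.eval (joinHom K n n' (x, y)) P -
          MvPolynomial.eval (joinHom K n n' (x, y')) P := by
      funext x
      exact congrArg₂ (· - ·) (hF x y) (hF x y')
    rw [e]
    exact h2

end Pool.Agent.Results.MP_e5d384_lc.PolynomialColumns
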