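import Pool.Agent.Y395.RM.B

set_option autoImplicit false

/-!
# The log-rank conjecture for random perturbations of arbitrary functions

Let `F₀ : X → Y → Bool` be an arbitrary function (`X`, `Y` finite), let `E` be an arbitrary set of
positions, and let `F` be a uniformly random function which agrees with `F₀` outside `E`. Let
`L(F)` be `log₂` of the real rank of the communication matrix of `F` and `D(F)` the deterministic
communication complexity.

* For every `ε > 0` there is `C` such that for all `X`, `Y`, `F₀`, `E`, for all but a proportion `ε`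
  of the functions `F` one has `D(F) ≤ max (D(F₀)) (L(F)) + C` and `L(F₀) ≤ L(F) + C`.
* So the bound of the log-rank conjecture passes from an arbitrary function to nearly all of its
  perturbations along an arbitrary set of positions, with the same exponent.
* If `E` cannot be covered by fewer than `t` rows and columns, then
  `D(F) ≤ max (D(F₀)) (L(F) + 6) + 2` for all but a proportion `2 ^ (-t / 12)` of the functions `F`.
  In particular (`F₀ = 0`) `D(F) ≤ L(F) + 8` for all but this proportion of the functions `F ≤ G`, for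
  an arbitrary function `G` whose ones cannot be covered by fewer than `t` lines.
* If in addition `t ≥ |X| ^ δ`, `0 < δ ≤ 1`, then `D(F) ≤ (L(F) + 4) / δ + 2` for all but this
  proportion of the functions `F`, for every function `F₀` whatsoever.

Proof. Take a maximal set `M` of positions in `E` which are in different rows and columns. The
lines through `M` cover `E`, so outside of `2 |M|` lines `F` is equal to `F₀`. In order to find
`F x y` the players say if their line is one of the lines of the cover; if so they give its number.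
The rank of `F` is at least `|M| / 8` except with probability `2 ^ (-|M| / 6)`: fix `F` outside `M`;
two choices on `M` differ by a matrix whose rank is the number of positions in which they differ.
-/

namespace Pool.Agent.Results.MP_e5d384_lc.RandomMasks

/-- `F` has a deterministic two-party protocol with exactly `c` bits. (Protocols exactly as in the
frozen statement S15531: `t` is the transcript so far, `owner t` says who speaks, and the answer is
a function of the transcript.) -/
def HasProtocol {X Y : Type} (F : X → Y → Bool) (c : ℕ) : Prop :=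
  ∃ (owner : List Bool → Bool) (a : List Bool → X → Bool)
      (b : List Bool → Y → Bool) (out : List Bool → Bool),
      ∀ x y, out (Nat.iterate
        (fun t : List Bool => t ++ [if owner t then a t x else b t y]) c []) = F x y

/-- `log₂` of the real rank of the communication matrix of `F` (it is `0` for `F = 0`) -/
noncomputable def logRank {X Y : Type} [Fintype X] [Fintype Y] (F : X → Y → Bool) : ℝ :=
  Real.logb 2 ((Matrix.of (fun (x : X) (y : Y) => if F x y then (1 : ℝ) else 0)).rank : ℝ)

/-- All but a proportion `ε` of the functions `F` which agree with `F₀` outside `E` have the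
property `P`. -/
def AllBut {X Y : Type} (ε : ℝ) (F₀ : X → Y → Bool) (E : X → Y → Prop)
    (P : (X → Y → Bool) → Prop) : Prop :=
  (({F : X → Y → Bool | (∀ x y, ¬ E x y → F x y = F₀ x y) ∧ ¬ P F}.ncard : ℕ) : ℝ) ≤
    ε * (({F : X → Y → Bool | ∀ x y, ¬ E x y → F x y = F₀ x y}.ncard : ℕ) : ℝ)

/-- `E` cannot be covered by fewer than `t` rows and columns. -/
def CoverAtLeast {X Y : Type} (E : X → Y → Prop) (t : ℕ) : Prop :=
  ∀ (A : Finset X) (B : Finset Y), (∀ x y, E x y → x ∈ A ∨ y ∈ B) → t ≤ A.card + B.card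

open Pool.Agent.Y395.RM in
theorem allBut_of_num {X Y : Type} [Fintype X] [Fintype Y] {ε : ℝ} {F₀ : X → Y → Bool}
    {E : X → Y → Prop} {P : (X → Y → Bool) → Prop} {Q : (X → Y → Bool) → Prop}
    (h : (num F₀ E Q : ℝ) ≤ ε * (num F₀ E (fun _ => True) : ℝ))
    (hPQ : ∀ F : X → Y → Bool, (∀ x y, ¬ E x y → F x y = F₀ x y) → ¬ Q F → P F) :
    AllBut ε F₀ E P := by
  unfold AllBut
  have h1 : num F₀ E (fun _ => True) =
      {F : X → Y → Bool | ∀ x y, ¬ E x y → F x y = F₀ x y}.ncard := by
    unfold num
    simp only [and_true]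
  rw [h1] at h
  refine le_trans ?_ h
  have h2 : num F₀ E (fun F => ¬ P F) ≤ num F₀ E Q := by
    refine num_mono fun F hF hn => ?_
    by_contra hc
    exact hn (hPQ F hF hc)
  exact_mod_cast h2

open Pool.Agent.Y395.RM Pool.Agent.Y395.RK in
/-- perturbations along sets which need many lines -/
theorem lines_bound {X Y : Type} [Fintype X] [Fintype Y] (F₀ : X → Y → Bool) (E : X → Y → Prop)
    (t : ℕ) (ht : CoverAtLeast E t) (P : (X → Y → Bool) → Prop)
    (hP : ∀ (W : Finset (X ⊕ Y)) (F : X → Y → Bool), t ≤ W.card → W.card ≤ 16 * R F →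
      (∀ a b, a ∉ W → b ∉ W → ¬ (bg E).Adj a b) → (∀ x y, ¬ E x y → F x y = F₀ x y) → P F) :
    AllBut ((2 : ℝ) ^ (-((t : ℝ) / 12))) F₀ E P := by
  classical
  obtain ⟨M, W, hM, hWc, hW⟩ := exists_cover (bg E)
  obtain ⟨A, B, hAB, hE⟩ := lines E W hW
  have htW : t ≤ W.card := by
    refine (ht A B fun x y h => ?_).trans hAB
    by_contra hc
    push Not at hc
    exact hE x y hc.1 hc.2 h
  have h1 := low_rank F₀ E M hM
  refine allBut_of_num (Q := fun F => 8 * R F < M.card) (h1.trans ?_) fun F hF hQ => ?_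
  · refine mul_le_mul_of_nonneg_right ?_ (Nat.cast_nonneg _)
    apply Real.rpow_le_rpow_of_exponent_le (by norm_num)
    have : (t : ℝ) ≤ 2 * (M.card : ℝ) := by exact_mod_cast htW.trans hWc
    linarith
  · exact hP W F htW (by omega) hW hF

theorem result :
    -- all perturbations
    (∀ ε : ℝ, 0 < ε → ∃ C : ℝ, ∀ (X Y : Type) [Fintype X] [Fintype Y] (F₀ : X → Y → Bool)
      (E : X → Y → Prop) (b₀ : ℕ), HasProtocol F₀ b₀ →
      AllBut ε F₀ E fun F =>
        (∃ b : ℕ, HasProtocol F b ∧ (b : ℝ) ≤ max (b₀ : ℝ) (logRank F) + C) ∧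
        logRank F₀ ≤ logRank F + C) ∧
    -- the conjectured bound passes to the perturbations
    (∀ ε A c : ℝ, 0 < ε → 0 ≤ A → 1 ≤ c → ∃ A' : ℝ,
      ∀ (X Y : Type) [Fintype X] [Fintype Y] (F₀ : X → Y → Bool) (E : X → Y → Prop) (b₀ : ℕ),
        HasProtocol F₀ b₀ → (b₀ : ℝ) ≤ A * (1 + logRank F₀) ^ c →
        AllBut ε F₀ E fun F =>
          ∃ b : ℕ, HasProtocol F b ∧ (b : ℝ) ≤ A' * (1 + logRank F) ^ c) ∧
    -- exponentially small exceptional sets
    (∀ (X Y : Type) [Fintype X] [Fintype Y] (F₀ : X → Y → Bool) (E : X → Y → Prop) (b₀ t : ℕ),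
      HasProtocol F₀ b₀ → CoverAtLeast E t →
      AllBut ((2 : ℝ) ^ (-((t : ℝ) / 12))) F₀ E fun F =>
        ∃ b : ℕ, HasProtocol F b ∧ (b : ℝ) ≤ max (b₀ : ℝ) (logRank F + 6) + 2) ∧
    -- arbitrary functions, perturbed along a set which needs polynomially many lines
    (∀ (δ : ℝ), 0 < δ → δ ≤ 1 → ∀ (X Y : Type) [Fintype X] [Fintype Y] (F₀ : X → Y → Bool)
      (E : X → Y → Prop) (t : ℕ), CoverAtLeast E t → (Fintype.card X : ℝ) ^ δ ≤ t →
      AllBut ((2 : ℝ) ^ (-((t : ℝ) / 12))) F₀ E fun F =>
        ∃ b : ℕ, HasProtocol F b ∧ (b : ℝ) ≤ (logRank F + 4) / δ + 2) := by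
  refine ⟨?_, ?_, ?_, ?_⟩
  · intro ε hε
    obtain ⟨C, _, h⟩ := Pool.Agent.Y395.RM.pert ε hε
    refine ⟨C, fun X Y _ _ F₀ E b₀ h0 => ?_⟩
    exact allBut_of_num (h X Y F₀ E b₀ h0) fun F _ hF => not_not.1 hF
  · intro ε A c hε hA hc
    obtain ⟨C, hC, h⟩ := Pool.Agent.Y395.RM.pert ε hε
    refine ⟨A * (1 + C) ^ c + 1 + C, fun X Y _ _ F₀ E b₀ h0 hb => ?_⟩
    refine allBut_of_num (h X Y F₀ E b₀ h0) fun F _ hF => ?_
    obtain ⟨⟨b, hb1, hb2⟩, h4⟩ := not_not.1 hF
    refine ⟨b, hb1, hb2.trans ?_⟩
    have e1 : Real.logb 2 (Pool.Agent.Y395.RM.R F : ℝ) = logRank F := rfl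
    have e2 : Real.logb 2 (Pool.Agent.Y395.RM.R F₀ : ℝ) = logRank F₀ := rfl
    rw [e1, e2] at h4
    rw [e1]
    have hx0 : 0 ≤ logRank F := by
      rw [← e1]
      exact Pool.Agent.Y395.RM.llog_nonneg _
    have hy0 : 0 ≤ logRank F₀ := by
      rw [← e2]
      exact Pool.Agent.Y395.RM.llog_nonneg _
    obtain ⟨x, hx⟩ : ∃ x, x = logRank F := ⟨_, rfl⟩
    obtain ⟨y, hy⟩ : ∃ y, y = logRank F₀ := ⟨_, rfl⟩
    rw [← hx] at h4 hx0 ⊢
    rw [← hy] at h4 hy0 hb
    have hp1 : 1 ≤ (1 + x) ^ c := Real.one_le_rpow (by linarith) (by linarith)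
    have hpx : 1 + x ≤ (1 + x) ^ c := by
      calc 1 + x = (1 + x) ^ (1 : ℝ) := (Real.rpow_one _).symm
        _ ≤ (1 + x) ^ c := Real.rpow_le_rpow_of_exponent_le (by linarith) hc
    have h5 : (1 + y) ^ c ≤ (1 + C) ^ c * (1 + x) ^ c := by
      rw [← Real.mul_rpow (by linarith) (by linarith)]
      apply Real.rpow_le_rpow (by linarith) _ (by linarith)
      nlinarith
    have h6 : (b₀ : ℝ) ≤ A * (1 + C) ^ c * (1 + x) ^ c := by
      refine hb.trans ?_
      rw [mul_assoc]
      exact mul_le_mul_of_nonneg_left h5 hA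
    have h7 : 0 ≤ A * (1 + C) ^ c * (1 + x) ^ c := by positivity
    have h8 : max (b₀ : ℝ) x ≤ A * (1 + C) ^ c * (1 + x) ^ c + (1 + x) ^ c := by
      apply max_le
      · linarith
      · linarith
    have h9 : C ≤ C * (1 + x) ^ c := by nlinarith
    linarith
  · intro X Y _ _ F₀ E b₀ t h0 ht
    refine lines_bound F₀ E t ht _ fun W F _ hW hc hF => ?_
    exact Pool.Agent.Y395.RM.good F₀ F E W hc hF hW b₀ h0
  · intro δ hδ hδ1 X Y _ _ F₀ E t ht hX
    refine lines_bound F₀ E t ht _ fun W F htW hW _ _ => ?_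
    rcases Nat.eq_zero_or_pos (Fintype.card X) with h | h
    · have hE : ∀ x : X, False := fun x => by
        have := Fintype.card_pos_iff.2 ⟨x⟩
        omega
      refine ⟨0, ?_, ?_⟩
      · have : F = fun (_ : X) (_ : Y) => true := by
          funext x
          exact (hE x).elim
        rw [this]
        exact Pool.Agent.TH744.LR.Prot.const true
      · have h1 : 0 ≤ logRank F := Pool.Agent.Y395.RM.llog_nonneg (Pool.Agent.Y395.RM.R F)
        rw [Nat.cast_zero]
        positivity
    · have hp := Nat.le_pow_clog (b := 2) (by norm_num) (Fintype.card X)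
      refine ⟨_, Pool.Agent.TH744.LR.Prot.of_card F _ hp, ?_⟩
      have hcX : (0 : ℝ) < (Fintype.card X : ℝ) := by exact_mod_cast h
      have hclog : ((Nat.clog 2 (Fintype.card X) : ℕ) : ℝ) ≤
          Real.logb 2 (Fintype.card X : ℝ) + 1 := by
        rcases Nat.lt_or_ge 1 (Fintype.card X) with h1 | h1
        · have hlt := Nat.pow_pred_clog_lt_self (b := 2) (by norm_num) (x := Fintype.card X) h1
          have hpos : 0 < Nat.clog 2 (Fintype.card X) := Nat.clog_pos (by norm_num) (by omega)
          have h2 : (2 : ℝ) ^ (Nat.clog 2 (Fintype.card X) - 1) ≤ (Fintype.card X : ℝ) := by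
            have : 2 ^ (Nat.clog 2 (Fintype.card X) - 1) ≤ Fintype.card X := by
              simpa [Nat.pred_eq_sub_one] using hlt.le
            exact_mod_cast this
          have h3 := Real.logb_le_logb_of_le (b := 2) (by norm_num) (by positivity) h2
          rw [Real.logb_pow, Real.logb_self_eq_one (by norm_num), mul_one,
            Nat.cast_sub hpos, Nat.cast_one] at h3
          linarith
        · have h2 : Fintype.card X = 1 := by omega
          rw [h2]
          simp
      have hr : (Fintype.card X : ℝ) ^ δ ≤ 16 * (Pool.Agent.Y395.RM.R F : ℝ) := by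
        refine hX.trans ?_
        exact_mod_cast htW.trans hW
      have hrpos : 0 < (Pool.Agent.Y395.RM.R F : ℝ) := by
        have := Real.rpow_pos_of_pos hcX δ
        linarith
      have h4 : δ * Real.logb 2 (Fintype.card X : ℝ) ≤ 4 + logRank F := by
        have h5 := Real.logb_le_logb_of_le (b := 2) (by norm_num) (Real.rpow_pos_of_pos hcX δ) hr
        rw [Real.logb_rpow_eq_mul_logb_of_pos hcX,
          Real.logb_mul (by norm_num) hrpos.ne'] at h5
        have h6 : Real.logb 2 16 = 4 := by
          rw [show (16 : ℝ) = 2 ^ (4 : ℕ) by norm_num, Real.logb_pow,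
            Real.logb_self_eq_one (by norm_num)]
          norm_num
        rw [h6] at h5
        exact h5
      have h5 : Real.logb 2 (Fintype.card X : ℝ) ≤ (logRank F + 4) / δ := by
        rw [le_div_iff₀ hδ]
        linarith
      push_cast
      linarith

end Pool.Agent.Results.MP_e5d384_lc.RandomMasks
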