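import Pool.Agent.Y424.LR.DL
import Pool.Agent.Y424.LR.NL

/-!
# The log-rank conjecture for nested decision lists of rectangles

Let `r` be the real rank of the communication matrix of `F` and let `L = log₂ r`. A decision list of
rectangles of length `m` evaluates at `(x, y)` to the leaf which belongs to the first of `m`
combinatorial rectangles that contains `(x, y)`.

* If `F` has a decision list of `m` rectangles with constant leaves, then
  `D(F) ≤ 2 (L + 1) (L + log₂ (m + 1) + 3) + 2`. So the log-rank conjecture holds for all functions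
  which have decision lists of quasipolynomial length in the rank. (The known case are covers of one
  of the two colour classes by few rectangles, that is lists in which all leaves have the same
  colour.)
* The leaves may again be decision lists of rectangles, nested to depth `k`, and the innermost
  leaves may be functions whose matrix has twin-width at most `d`:
  `D(F) ≤ 2 (L + 1) (L + k log₂ (m + 1) + log₂ (d + 1) + 5) + 2`. For `k ≤ (L + 1) ^ a`,
  `m + 1 ≤ 2 ^ ((L + 1) ^ a)` and `d + 1 ≤ 2 ^ ((L + 1) ^ a)` this is at most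
  `16 (L + 1) ^ (2 a + 1)`. Such functions may have covers of neither colour class by few
  rectangles, their twin-width and their discrepancy on submatrices are not controlled.

Proof. Go through the list and remove from the set `A` of rows, or from the set `B` of columns, the
side of the current rectangle which is smaller than the fraction `1 / (m + 1)`. The first rectangle
with two large sides is disjoint from all earlier ones on what is left, and the leaf is treated in
the same way inside it. So each submatrix has a constant rectangle which contains a fraction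
`1 / ((m + 1) ^ k (4 (d + 1)))` of the rows and of the columns; then the phases of the file on
twin-width are used.
-/

set_option autoImplicit false

namespace Pool.Agent.Results.MP_e5d384_lc.RectangleDecisionLists

open Pool.Agent.Y424.LR (TwinWidthLE Nested listVal)

/-- `F` has a deterministic two-party protocol with exactly `c` bits. (Protocols exactly as in the
frozen statement S15531: `t` is the transcript so far, `owner t` says who speaks, and the answer is
a function of the transcript.) -/
def HasProtocol {X Y : Type} (F : X → Y → Bool) (c : ℕ) : Prop :=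
  ∃ (owner : List Bool → Bool) (a : List Bool → X → Bool)
      (b : List Bool → Y → Bool) (out : List Bool → Bool),
      ∀ x y, out (Nat.iterate
        (fun t : List Bool => t ++ [if owner t then a t x else b t y]) c []) = F x y

/-- `log₂` of the real rank of the communication matrix of `F` -/
noncomputable def logRank {X Y : Type} [Fintype X] [Fintype Y] (F : X → Y → Bool) : ℝ :=
  Real.logb 2 ((Matrix.of (fun (x : X) (y : Y) => if F x y then (1 : ℝ) else 0)).rank : ℝ)

theorem logRank_nonneg {X Y : Type} [Fintype X] [Fintype Y] {F : X → Y → Bool}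
    (hne : ∃ x y, F x y = true) : 0 ≤ logRank F := by
  have h1 : 1 ≤ (Matrix.of (fun (x : X) (y : Y) => if F x y then (1 : ℝ) else 0)).rank :=
    Pool.Agent.Y424.LR.rank_pos hne
  exact Real.logb_nonneg (by norm_num) (by exact_mod_cast h1)

theorem log_four (d : ℕ) : Real.logb 2 ((4 * (d + 1) : ℕ) : ℝ) = 2 + Real.logb 2 ((d : ℝ) + 1) := by
  have h1 : ((4 * (d + 1) : ℕ) : ℝ) = 2 ^ (2 : ℕ) * ((d : ℝ) + 1) := by
    push_cast
    norm_num
  rw [h1, Real.logb_mul (by norm_num) (by positivity), Real.logb_pow,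
    Real.logb_self_eq_one (by norm_num)]
  norm_num

theorem nested {X Y : Type} [Fintype X] [Fintype Y] (F : X → Y → Bool) (m d k : ℕ)
    (hF : Nested m (fun q => TwinWidthLE q d) k F) (hne : ∃ x y, F x y = true) :
    ∃ b : ℕ, HasProtocol F b ∧
      (b : ℝ) ≤ 2 * (logRank F + 1) *
        (logRank F + k * Real.logb 2 ((m : ℝ) + 1) + Real.logb 2 ((d : ℝ) + 1) + 5) + 2 := by
  have hr : Pool.Agent.Y424.LR.Rich F ((m + 1) ^ k * (4 * (d + 1))) :=
    Pool.Agent.Y424.LR.rich_nested (fun q hq => Pool.Agent.Y424.LR.rich_tww hq) hF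
  have hc : 1 ≤ (m + 1) ^ k * (4 * (d + 1)) :=
    Nat.mul_pos (Nat.pow_pos (Nat.succ_pos m)) (by omega)
  obtain ⟨b, h1, h2⟩ := Pool.Agent.Y424.LR.bits_real hc hr (Pool.Agent.Y424.LR.rank_pos hne)
  have e : Real.logb 2 (((m + 1) ^ k * (4 * (d + 1)) : ℕ) : ℝ) =
      k * Real.logb 2 ((m : ℝ) + 1) + (2 + Real.logb 2 ((d : ℝ) + 1)) := by
    rw [← log_four d, Nat.cast_mul, Real.logb_mul (by positivity) (by positivity), Nat.cast_pow,
      Real.logb_pow]
    push_cast
    ring
  rw [e] at h2
  refine ⟨b, h1, h2.trans (le_of_eq ?_)⟩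
  have e2 : Pool.Agent.Y424.LR.lr F = logRank F := rfl
  rw [e2]
  ring

/-- **The log-rank conjecture for nested decision lists of rectangles.** Here
`L = log₂ rank F` and `F ≠ 0`.
1. If `F` is given by a decision list of `m` rectangles with constant leaves, then
   `D(F) ≤ 2 (L + 1) (L + log₂ (m + 1) + 3) + 2`.
2. If `F` is given by decision lists of at most `m` rectangles, nested to depth `k`, with innermost
   leaves of twin-width at most `d`, then
   `D(F) ≤ 2 (L + 1) (L + k log₂ (m + 1) + log₂ (d + 1) + 5) + 2`.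
3. In particular `D(F) ≤ 16 (L + 1) ^ (2 a + 1)`, if `a ≥ 1`, `k ≤ (L + 1) ^ a`,
   `log₂ (m + 1) ≤ (L + 1) ^ a` and `log₂ (d + 1) ≤ (L + 1) ^ a`. -/
theorem result :
    (∀ (X Y : Type) [Fintype X] [Fintype Y] (e : Bool)
      (l : List ((X → Bool) × (Y → Bool) × Bool)), (∃ x y, listVal e l x y = true) →
      ∃ b : ℕ, HasProtocol (listVal e l) b ∧
        (b : ℝ) ≤ 2 * (logRank (listVal e l) + 1) *
          (logRank (listVal e l) + Real.logb 2 ((l.length : ℝ) + 1) + 3) + 2) ∧
    (∀ (X Y : Type) [Fintype X] [Fintype Y] (F : X → Y → Bool) (m d k : ℕ),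
      Nested m (fun q => TwinWidthLE q d) k F → (∃ x y, F x y = true) →
      ∃ b : ℕ, HasProtocol F b ∧
        (b : ℝ) ≤ 2 * (logRank F + 1) *
          (logRank F + k * Real.logb 2 ((m : ℝ) + 1) + Real.logb 2 ((d : ℝ) + 1) + 5) + 2) ∧
    (∀ (X Y : Type) [Fintype X] [Fintype Y] (F : X → Y → Bool) (a m d k : ℕ), 1 ≤ a →
      Nested m (fun q => TwinWidthLE q d) k F → (∃ x y, F x y = true) →
      (k : ℝ) ≤ (logRank F + 1) ^ a → Real.logb 2 ((m : ℝ) + 1) ≤ (logRank F + 1) ^ a →
      Real.logb 2 ((d : ℝ) + 1) ≤ (logRank F + 1) ^ a →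
      ∃ b : ℕ, HasProtocol F b ∧ (b : ℝ) ≤ 16 * (logRank F + 1) ^ (2 * a + 1)) := by
  refine ⟨?_, fun X Y _ _ F m d k hF hne => nested F m d k hF hne, ?_⟩
  · intro X Y _ _ e l hne
    obtain ⟨b, h1, h2⟩ := Pool.Agent.Y424.LR.bits_real (Nat.succ_le_succ (Nat.zero_le l.length))
      (Pool.Agent.Y424.LR.rich_list e l) (Pool.Agent.Y424.LR.rank_pos hne)
    refine ⟨b, h1, h2.trans (le_of_eq ?_)⟩
    have e2 : Pool.Agent.Y424.LR.lr (listVal e l) = logRank (listVal e l) := rfl
    rw [e2]
    push_cast
    ring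
  · intro X Y _ _ F a m d k ha hF hne hk hm hd
    obtain ⟨b, h1, h2⟩ := nested F m d k hF hne
    refine ⟨b, h1, h2.trans ?_⟩
    have hL := logRank_nonneg hne
    obtain ⟨M, hM⟩ : ∃ M, M = logRank F + 1 := ⟨_, rfl⟩
    have hM1 : 1 ≤ M := by rw [hM]; linarith
    have hLM : logRank F = M - 1 := by rw [hM]; ring
    rw [hLM] at h2 ⊢
    rw [← hM] at hk hm hd
    have e0 : M - 1 + 1 = M := by ring
    rw [e0]
    obtain ⟨P, hP⟩ : ∃ P, P = M ^ a := ⟨_, rfl⟩
    rw [← hP] at hk hm hd
    have hMP : M ≤ P := by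
      rw [hP]
      exact le_self_pow₀ hM1 (by omega)
    have hP1 : 1 ≤ P := hM1.trans hMP
    have hk0 : (0 : ℝ) ≤ k := Nat.cast_nonneg _
    have hlog0 : 0 ≤ Real.logb 2 ((m : ℝ) + 1) :=
      Real.logb_nonneg (by norm_num) (by linarith [Nat.cast_nonneg (α := ℝ) m])
    have e1 : (k : ℝ) * Real.logb 2 ((m : ℝ) + 1) ≤ P * P :=
      mul_le_mul hk hm hlog0 (by linarith)
    have e2 : M ^ (2 * a + 1) = P * P * M := by
      rw [hP]
      ring
    rw [e2]
    have e3 : P ≤ P * P := by nlinarith
    have e4 : M - 1 + (k : ℝ) * Real.logb 2 ((m : ℝ) + 1) + Real.logb 2 ((d : ℝ) + 1) + 5 + 1 ≤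
        8 * (P * P) := by
      nlinarith
    have e5 : 2 * M * (M - 1 + (k : ℝ) * Real.logb 2 ((m : ℝ) + 1) + Real.logb 2 ((d : ℝ) + 1) + 5) + 2
        ≤ 2 * M * (M - 1 + (k : ℝ) * Real.logb 2 ((m : ℝ) + 1) + Real.logb 2 ((d : ℝ) + 1) + 5 + 1) := by
      nlinarith
    refine e5.trans ?_
    calc 2 * M * (M - 1 + (k : ℝ) * Real.logb 2 ((m : ℝ) + 1) + Real.logb 2 ((d : ℝ) + 1) + 5 + 1)
        ≤ 2 * M * (8 * (P * P)) := mul_le_mul_of_nonneg_left e4 (by linarith)
      _ = 16 * (P * P * M) := by ring

end Pool.Agent.Results.MP_e5d384_lc.RectangleDecisionLists
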