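import Pool.Agent.Y424.LR.TW

/-!
# The log-rank conjecture for matrices of quasipolynomial twin-width

Let `r` be the real rank of the communication matrix of `F` and let `L = log₂ r`.

A matrix has twin-width at most `d` if its rows and its columns can be partitioned, starting with
singletons and ending with one part on each side, by merging two row parts or two column parts in
each step, in such a way that at each time every row part meets at most `d` column parts in a
non-constant block, and every column part at most `d` row parts. (Every matrix of rank `r` has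
twin-width at most `2 ^ r`, as it has at most `2 ^ r` distinct rows and columns.)

* If `F` has twin-width at most `d` then `D(F) ≤ 2 (L + 1) (L + log₂ (d + 1) + 5) + 2`; so the
  log-rank conjecture holds for all matrices whose twin-width is at most quasipolynomial in the rank.
  (For twin-width up to `polylog r` it follows from the linear neighbourhood complexity of graphs
  of bounded twin-width, which gives `D(F) ≤ L + O(d)`; this is an exponentially larger range.)
* More generally let `F` be computed by a decision tree with at most `k` queries, each of which is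
  a function of twin-width at most `d` or a function of the input of one of the players. Then
  `D(F) ≤ 2 (L + 1) (L + k log₂ (4 (d + 1)) + 3) + 2`. For `k ≤ (L + 1) ^ a` and
  `d + 1 ≤ 2 ^ ((L + 1) ^ a)` this is at most `14 (L + 1) ^ (2 a + 1)`.

Proof. Let `A` and `B` be sets of rows and columns and look at the first time when one of the parts
contains a fraction `1 / (4 (d + 1))` of `A` or of `B`. Say that this is a row part. The at most `d`
non-constant blocks of this part cover at most a quarter of `B`; for the other columns the value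
does not depend on the row of the part, and a majority of these columns gives a constant rectangle
with `|A| / (4 (d + 1))` rows and `3 |B| / 8` columns. Queries are composed; then the method of
Nisan and Wigderson is used. It is arranged in phases here: a phase removes one after the other the
rows or the columns of a constant rectangle of the remaining matrix, according to which strip has
the smaller rank; the two players announce the step in which their input is removed, and the
remaining problem has half the rank.
-/

set_option autoImplicit false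

namespace Pool.Agent.Results.MP_e5d384_lc.TwinWidth

open Pool.Agent.Y424.LR (TwinWidthLE Query)

/-- `F` has a deterministic two-party protocol with exactly `c` bits. (Protocols exactly as in the
frozen statement S15531: `t` is the transcript so far, `owner t` says who speaks, and the answer is
a function of the transcript.) -/
def HasProtocol {X Y : Type} (F : X → Y → Bool) (c : ℕ) : Prop :=
  ∃ (owner : List Bool → Bool) (a : List Bool → X → Bool)
      (b : List Bool → Y → Bool) (out : List Bool → Bool),
      ∀ x y, out (Nat.iterate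
        (fun t : List Bool => t ++ [if owner t then a t x else b t y]) c []) = F x y

/-- `log₂` of the real rank of the communication matrix of `F` -/
noncomputable def logRank {X Y : Type} [Fintype X] [Fintype Y] (F : X → Y → Bool) : ℝ :=
  Real.logb 2 ((Matrix.of (fun (x : X) (y : Y) => if F x y then (1 : ℝ) else 0)).rank : ℝ)

/-- The allowed queries: functions whose matrix has twin-width at most `d`, and functions of the
input of one player. -/
def Allowed {X Y : Type} (d : ℕ) (q : X → Y → Bool) : Prop :=
  TwinWidthLE q d ∨ (∃ a : X → Bool, ∀ x y, q x y = a x) ∨ (∃ b : Y → Bool, ∀ x y, q x y = b y)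

theorem rich {X Y : Type} [Fintype X] [Fintype Y] {d : ℕ} (q : X → Y → Bool)
    (hq : Allowed d q) : Pool.Agent.Y424.LR.Rich q (4 * (d + 1)) := by
  rcases hq with h | ⟨a, ha⟩ | ⟨b, hb⟩
  · exact Pool.Agent.Y424.LR.rich_tww h
  · have e : q = fun x _ => a x := by
      funext x y
      exact ha x y
    rw [e]
    exact (Pool.Agent.Y424.LR.rich_row a).mono (by omega)
  · have e : q = fun _ y => b y := by
      funext x y
      exact hb x y
    rw [e]
    exact (Pool.Agent.Y424.LR.rich_col b).mono (by omega)

theorem logRank_nonneg {X Y : Type} [Fintype X] [Fintype Y] {F : X → Y → Bool}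
    (hne : ∃ x y, F x y = true) : 0 ≤ logRank F := by
  have h1 : 1 ≤ (Matrix.of (fun (x : X) (y : Y) => if F x y then (1 : ℝ) else 0)).rank :=
    Pool.Agent.Y424.LR.rank_pos hne
  exact Real.logb_nonneg (by norm_num) (by exact_mod_cast h1)

theorem log_four (d : ℕ) : Real.logb 2 ((4 * (d + 1) : ℕ) : ℝ) = 2 + Real.logb 2 ((d : ℝ) + 1) := by
  have h1 : ((4 * (d + 1) : ℕ) : ℝ) = 2 ^ (2 : ℕ) * ((d : ℝ) + 1) := by
    push_cast
    norm_num
  rw [h1, Real.logb_mul (by norm_num) (by positivity), Real.logb_pow,
    Real.logb_self_eq_one (by norm_num)]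
  norm_num

theorem queries {X Y : Type} [Fintype X] [Fintype Y] (F : X → Y → Bool) (d k : ℕ)
    (hF : Query (Allowed d) k F) (hne : ∃ x y, F x y = true) :
    ∃ b : ℕ, HasProtocol F b ∧
      (b : ℝ) ≤ 2 * (logRank F + 1) * (logRank F + k * (2 + Real.logb 2 ((d : ℝ) + 1)) + 3) + 2 := by
  obtain ⟨b, h1, h2⟩ := Pool.Agent.Y424.LR.query_bits (c := 4 * (d + 1))
    (fun q hq => rich q hq) (by omega) hF hne
  rw [log_four] at h2
  exact ⟨b, h1, h2⟩

/-- **The log-rank conjecture for matrices of quasipolynomial twin-width, and for all functions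
which can be computed with few queries to such matrices.**
1. `D(F) ≤ 2 (L + 1) (L + log₂ (d + 1) + 5) + 2` with `L = log₂ rank F`, if `F ≠ 0` has twin-width
   at most `d`.
2. `D(F) ≤ 2 (L + 1) (L + k (2 + log₂ (d + 1)) + 3) + 2`, if `F ≠ 0` is computed by a decision tree
   with at most `k` queries to functions of twin-width at most `d` and to functions of the input of
   one player.
3. In particular `D(F) ≤ 14 (L + 1) ^ (2 a + 1)`, if `a ≥ 1`, `k ≤ (L + 1) ^ a` and
   `log₂ (d + 1) ≤ (L + 1) ^ a`. -/
theorem result :
    (∀ (X Y : Type) [Fintype X] [Fintype Y] (F : X → Y → Bool) (d : ℕ),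
      TwinWidthLE F d → (∃ x y, F x y = true) →
      ∃ b : ℕ, HasProtocol F b ∧
        (b : ℝ) ≤ 2 * (logRank F + 1) * (logRank F + Real.logb 2 ((d : ℝ) + 1) + 5) + 2) ∧
    (∀ (X Y : Type) [Fintype X] [Fintype Y] (F : X → Y → Bool) (d k : ℕ),
      Query (Allowed d) k F → (∃ x y, F x y = true) →
      ∃ b : ℕ, HasProtocol F b ∧
        (b : ℝ) ≤ 2 * (logRank F + 1) *
          (logRank F + k * (2 + Real.logb 2 ((d : ℝ) + 1)) + 3) + 2) ∧
    (∀ (X Y : Type) [Fintype X] [Fintype Y] (F : X → Y → Bool) (a d k : ℕ), 1 ≤ a →
      Query (Allowed d) k F → (∃ x y, F x y = true) →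
      (k : ℝ) ≤ (logRank F + 1) ^ a → Real.logb 2 ((d : ℝ) + 1) ≤ (logRank F + 1) ^ a →
      ∃ b : ℕ, HasProtocol F b ∧ (b : ℝ) ≤ 14 * (logRank F + 1) ^ (2 * a + 1)) := by
  refine ⟨?_, fun X Y _ _ F d k hF hne => queries F d k hF hne, ?_⟩
  · intro X Y _ _ F d hF hne
    have hq : Query (Allowed d) 1 F := by
      have h := Query.ask (𝒬 := Allowed d) 0 F (fun _ _ => true) (fun _ _ => false) (Or.inl hF)
        (Query.const 0 true) (Query.const 0 false)
      have e : (fun x y => if F x y = true then (fun (_ : X) (_ : Y) => true) x y
          else (fun (_ : X) (_ : Y) => false) x y) = F := by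
        funext x y
        cases F x y <;> rfl
      rw [e] at h
      exact h
    obtain ⟨b, h1, h2⟩ := queries F d 1 hq hne
    refine ⟨b, h1, h2.trans (le_of_eq ?_)⟩
    push_cast
    ring
  · intro X Y _ _ F a d k ha hF hne hk hd
    obtain ⟨b, h1, h2⟩ := queries F d k hF hne
    refine ⟨b, h1, h2.trans ?_⟩
    have hL := logRank_nonneg hne
    obtain ⟨M, hM⟩ : ∃ M, M = logRank F + 1 := ⟨_, rfl⟩
    have hM1 : 1 ≤ M := by rw [hM]; linarith
    have hLM : logRank F = M - 1 := by rw [hM]; ring
    rw [hLM] at h2 ⊢
    rw [← hM] at hk hd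
    have e0 : M - 1 + 1 = M := by ring
    rw [e0]
    obtain ⟨P, hP⟩ : ∃ P, P = M ^ a := ⟨_, rfl⟩
    rw [← hP] at hk hd
    have hMP : M ≤ P := by
      rw [hP]
      exact le_self_pow₀ hM1 (by omega)
    have hP1 : 1 ≤ P := hM1.trans hMP
    have hk0 : (0 : ℝ) ≤ k := Nat.cast_nonneg _
    have hlog0 : 0 ≤ Real.logb 2 ((d : ℝ) + 1) :=
      Real.logb_nonneg (by norm_num) (by linarith [Nat.cast_nonneg (α := ℝ) d])
    have e1 : (k : ℝ) * (2 + Real.logb 2 ((d : ℝ) + 1)) ≤ P * (2 + P) :=
      mul_le_mul hk (by linarith) (by linarith) (by linarith)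
    have e2 : M ^ (2 * a + 1) = P * P * M := by
      rw [hP]
      ring
    rw [e2]
    have e3 : P ≤ P * P := by nlinarith
    have e4 : M - 1 + (k : ℝ) * (2 + Real.logb 2 ((d : ℝ) + 1)) + 3 + 1 ≤ 7 * (P * P) := by
      nlinarith
    have e5 : 2 * M * (M - 1 + (k : ℝ) * (2 + Real.logb 2 ((d : ℝ) + 1)) + 3) + 2 ≤
        2 * M * (M - 1 + (k : ℝ) * (2 + Real.logb 2 ((d : ℝ) + 1)) + 3 + 1) := by
      nlinarith
    refine e5.trans ?_
    calc 2 * M * (M - 1 + (k : ℝ) * (2 + Real.logb 2 ((d : ℝ) + 1)) + 3 + 1)
        ≤ 2 * M * (7 * (P * P)) := mul_le_mul_of_nonneg_left e4 (by linarith)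
      _ = 14 * (P * P * M) := by ring

end Pool.Agent.Results.MP_e5d384_lc.TwinWidth
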